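import Pool.Agent.Torelli.FPart.Hom

/-!
# Torelli / F3 : `Ka`, normal form of `Ma s h`, `Ma s h ⊓ IA`
-/

set_option autoImplicit false
set_option linter.unusedSimpArgs false

namespace Pool.Agent.Torelli

theorem kap_eq_of (s : ℕ) (u : F) {n : ℤ} (h : nu s u = n) : kap s u = push s u * Ta s ^ (-n) := by
  rw [kap, h]

/-- `kap s (H (s+1)) = KA s * TD (s+1)` -/
theorem kap_H (s : ℕ) : kap s (H (s + 1)) = KA s * TD (s + 1) := by
  have hH : H (s + 1) ∈ FS (s + 1) 1 := H_mem_FS le_rfl (by omega)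
  have e : push s (H (s + 1)) * Ta s ^ (-2 : ℤ) = KA s * TD (s + 1) := by
    have h1 : push s (H (s + 1)) = P s * (w (s + 1) * P s * (w (s + 1))⁻¹)⁻¹ * (P s)⁻¹ *
        ((w (s + 1) * P s * (w (s + 1))⁻¹)⁻¹)⁻¹ := by
      rw [H, map_mul, map_mul, map_mul, map_inv, map_inv]
      have e1 : push s (a (s + 1)) = P s := push_a' s 0
      have e2 : push s (b (s + 1)) = (w (s + 1) * P s * (w (s + 1))⁻¹)⁻¹ := push_b' s 0
      rw [e1, e2]
    rw [h1, show (-2 : ℤ) = -1 + -1 by norm_num, zpow_add, zpow_neg, zpow_one]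
    (simp only [w_eq, iota_eq, TD_eq, S_eq, DX_eq, BP_eq, gKA_eq, KA_eq, KB_eq, Ta_ew, Tb_ew, P_ew, evWord_shift, evWord_inv', evWord_mul']; exact evWord_eq 4 _ _ (by decide +kernel) s)
  have h2 : push s (H (s + 1)) * Ta s ^ (-2 : ℤ) ∈ IA := by
    rw [push_Ta_mem_IA hH]
    refine ⟨cl_H _, ?_⟩
    have hx : a (s + 1) ∈ FS (s + 1) 1 := a_mem_FS le_rfl (by omega)
    have hy : b (s + 1) ∈ FS (s + 1) 1 := b_mem_FS le_rfl (by omega)
    have nx : nu s (a (s + 1)) = 0 := by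
      have h3 := act_push hx (eb s)
      have h4 : push s (a (s + 1)) = Qa s 0 := push_a' s 0
      rw [h4, act_Qa] at h3
      exact (TT_inj (h := 1) (ea_mem_Vs le_rfl (by omega)) (clv_mem_Vs hx) h3).2.symm
    have ny : nu s (b (s + 1)) = 0 := by
      have h3 := act_push hy (eb s)
      have h4 : push s (b (s + 1)) = Qb s 0 := push_b' s 0
      rw [h4, act_Qb] at h3
      exact (TT_inj (h := 1) (eb_mem_Vs le_rfl (by omega)) (clv_mem_Vs hy) h3).2.symm
    have hxy := mul_mem hx hy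
    have hxi := inv_mem hx
    have hyi := inv_mem hy
    rw [H, nu_mul (mul_mem hxy hxi) hyi, nu_mul hxy hxi, nu_mul hx hy, nu_inv hx, nu_inv hy, nx, ny]
    simp only [clv_mul, clv_inv, clv_a, clv_b, map_neg, map_add, AddMonoidHom.add_apply,
      om_ea, om_eb, ea_odd, eb_odd, ea_even, eb_even, Finsupp.neg_apply, if_true,
      AddMonoidHom.neg_apply]
    norm_num
  rw [← (eq_kap_of_IA hH h2).2, e]

theorem mem_Ka_iff {s h : ℕ} {φ : MulAut F} :
    φ ∈ Ka s (h + 1) ↔ ∃ u ∈ FS (s + 1) h, cl u = 1 ∧ φ = kap s u := by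
  constructor
  · intro hφ
    unfold Ka at hφ
    rw [Nat.add_sub_cancel] at hφ
    refine Subgroup.closure_induction ?_ ?_ ?_ ?_ hφ
    · intro x hx; exact hx
    · exact ⟨1, one_mem _, map_one _, (kap_one' s).symm⟩
    · rintro x y _ _ ⟨u, hu, hu1, rfl⟩ ⟨v, hv, hv1, rfl⟩
      exact ⟨u * v, mul_mem hu hv, by rw [map_mul, hu1, hv1, mul_one], (kap_mul hu hv hu1).symm⟩
    · rintro x _ ⟨u, hu, hu1, rfl⟩
      exact ⟨u⁻¹, inv_mem hu, by rw [map_inv, hu1, inv_one], (kap_inv' hu hu1).symm⟩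
  · intro hφ
    exact Subgroup.subset_closure hφ

theorem kap_mem_Ka {s h : ℕ} {u : F} (hu : u ∈ FS (s + 1) h) (h1 : cl u = 1) :
    kap s u ∈ Ka s (h + 1) := mem_Ka_iff.2 ⟨u, hu, h1, rfl⟩

theorem push_Ta_mem_Ka {s h : ℕ} {u : F} (hu : u ∈ FS (s + 1) h) {n : ℤ}
    (h1 : push s u * Ta s ^ n ∈ IA) : push s u * Ta s ^ n ∈ Ka s (h + 1) := by
  obtain ⟨h2, h3⟩ := eq_kap_of_IA hu h1
  rw [h3]
  exact kap_mem_Ka hu h2

theorem Ka_le_Tor (s h : ℕ) : Ka s (h + 1) ≤ Tor s (h + 1) := by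
  intro φ hφ
  obtain ⟨u, hu, h1, rfl⟩ := mem_Ka_iff.1 hφ
  exact kap_mem_Tor hu h1

/-- **normal form** of the elements of `Ma s (h+1)` -/
theorem Ma_normal_form {s h : ℕ} {φ : MulAut F} :
    φ ∈ Ma s (h + 1) ↔ ∃ u ∈ FS (s + 1) h, ∃ n : ℤ, ∃ γ ∈ M (s + 1) h,
      φ = push s u * Ta s ^ n * γ := by
  constructor
  · intro hφ
    let K : Subgroup (MulAut F) :=
      { carrier := {φ | ∃ u ∈ FS (s + 1) h, ∃ n : ℤ, ∃ γ ∈ M (s + 1) h,
          φ = push s u * Ta s ^ n * γ}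
        one_mem' := ⟨1, one_mem _, 0, 1, one_mem _, by simp⟩
        mul_mem' := by
          rintro φ ψ ⟨u, hu, n, γ, hγ, rfl⟩ ⟨v, hv, m, δ, hδ, rfl⟩
          obtain ⟨k, hk⟩ := push_conj hγ hv
          have c1 : Commute (Ta s ^ n) (push s (γ v)) := (Ta_commute_push s _).zpow_left n
          have c2 : γ * Ta s ^ m = Ta s ^ m * γ := ((Ta_commute_M hγ).zpow_left m).symm.eq
          refine ⟨u * γ v, mul_mem hu (M_FS hγ hv), n + k + m, γ * δ, mul_mem hγ hδ, ?_⟩
          calc push s u * Ta s ^ n * γ * (push s v * Ta s ^ m * δ)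
              = push s u * Ta s ^ n * (γ * push s v * γ⁻¹) * (γ * Ta s ^ m) * δ := by group
            _ = push s u * (Ta s ^ n * push s (γ v)) * Ta s ^ k * (Ta s ^ m * γ) * δ := by
              rw [hk, c2]; group
            _ = _ := by rw [c1.eq, map_mul, zpow_add, zpow_add]; group
        inv_mem' := by
          rintro φ ⟨u, hu, n, γ, hγ, rfl⟩
          have hγ' := inv_mem hγ
          obtain ⟨k, hk⟩ := push_conj hγ' (inv_mem hu)
          rw [inv_inv] at hk
          have c1 : Commute (Ta s ^ (-n)) (push s u⁻¹) := (Ta_commute_push s _).zpow_left (-n)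
          have c2 : γ⁻¹ * Ta s ^ (-n) = Ta s ^ (-n) * γ⁻¹ :=
            ((Ta_commute_M hγ').zpow_left (-n)).symm.eq
          refine ⟨γ⁻¹ u⁻¹, M_FS hγ' (inv_mem hu), k + -n, γ⁻¹, hγ', ?_⟩
          calc (push s u * Ta s ^ n * γ)⁻¹ = γ⁻¹ * (Ta s ^ (-n) * push s u⁻¹) := by
                rw [map_inv]; group
            _ = (γ⁻¹ * push s u⁻¹ * γ) * (γ⁻¹ * Ta s ^ (-n)) := by rw [c1.eq]; group
            _ = _ := by rw [hk, c2, zpow_add]; group }
    have hK : Ma s (h + 1) ≤ K := by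
      unfold Ma
      rw [Subgroup.closure_le]
      rintro φ ((hφ | rfl) | ⟨h2, rfl⟩)
      · exact ⟨1, one_mem _, 0, φ, hφ, by simp⟩
      · exact ⟨1, one_mem _, 1, 1, one_mem _, by simp⟩
      · exact ⟨a (s + 1), a_mem_FS le_rfl (by omega), 0, 1, one_mem _, by
          have : push s (a (s + 1)) = P s := push_a0 s
          rw [this]; simp⟩
    exact hK hφ
  · rintro ⟨u, hu, n, γ, hγ, rfl⟩
    refine mul_mem (mul_mem ?_ (zpow_mem (Ta_mem_Ma _ _) _)) (M_le_Ma s (h + 1) hγ)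
    have : FS (s + 1) h ≤ (Ma s (h + 1)).comap (push s) := by
      have hS : ∀ k, k + 1 < h → S (s + 1 + k) ∈ Ma s (h + 1) := fun k hk =>
        M_le_Ma s (h + 1) (S_mem_M (by omega) (by omega))
      have hw : 1 ≤ h → w (s + 1) ∈ Ma s (h + 1) := fun hk =>
        M_le_Ma s (h + 1) (w_mem_M (by omega) (by omega))
      have hP : 1 ≤ h → P s ∈ Ma s (h + 1) := fun hk => P_mem_Ma (by omega)
      refine FS_le ?_ ?_
      · intro i h1 h2
        obtain ⟨k, rfl⟩ := Nat.exists_eq_add_of_le h1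
        rw [Subgroup.mem_comap, push_a']
        have : ∀ k, k < h → Qa s k ∈ Ma s (h + 1) := by
          intro k
          induction k with
          | zero => intro hk; exact hP (by omega)
          | succ k ih =>
            intro hk
            exact mul_mem (mul_mem (hS k hk) (ih (by omega))) (inv_mem (hS k hk))
        exact this k (by omega)
      · intro i h1 h2
        obtain ⟨k, rfl⟩ := Nat.exists_eq_add_of_le h1
        rw [Subgroup.mem_comap, push_b']
        have : ∀ k, k < h → Qb s k ∈ Ma s (h + 1) := by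
          intro k
          induction k with
          | zero =>
            intro hk
            exact inv_mem (mul_mem (mul_mem (hw (by omega)) (hP (by omega)))
              (inv_mem (hw (by omega))))
          | succ k ih =>
            intro hk
            exact mul_mem (mul_mem (hS k hk) (ih (by omega))) (inv_mem (hS k hk))
        exact this k (by omega)
    exact this hu

/-- elements of `Ma` fixing the class of `b s` up to a multiple of `ea s` have no push part in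
homology: the classes of the data of a normal form -/
theorem act_normal_form {s h : ℕ} {u : F} (hu : u ∈ FS (s + 1) h) (n : ℤ) {γ : MulAut F}
    (hγ : γ ∈ M (s + 1) h) :
    act (push s u * Ta s ^ n * γ) (eb s) = eb s - clv u + (nu s u + n) • ea s := by
  rw [act_mul, M_fix_eb hγ (Or.inl (by omega)), act_push_Ta hu, TT, om_of_mem_Vs_eb (clv_mem_Vs hu),
    eb_odd, if_pos rfl, one_smul, zero_smul, sub_zero]
  abel

/-- `m ∈ Ma` with `m_* b_s = b_s` is `kap(u) γ`. -/
theorem Ma_fix_eb {s h : ℕ} {φ : MulAut F} (hφ : φ ∈ Ma s (h + 1)) (h1 : act φ (eb s) = eb s) :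
    ∃ u ∈ FS (s + 1) h, cl u = 1 ∧ ∃ γ ∈ M (s + 1) h, φ = kap s u * γ := by
  obtain ⟨u, hu, n, γ, hγ, rfl⟩ := Ma_normal_form.1 hφ
  rw [act_normal_form hu n hγ] at h1
  have hc := clv_mem_Vs hu
  have h2 : nu s u + n = 0 := by
    have := DFunLike.congr_fun h1 (2 * s)
    simp only [Finsupp.add_apply, Finsupp.sub_apply, Finsupp.smul_apply, smul_eq_mul, eb_even,
      ea_even, if_true, hc (2 * s) (Or.inl (by omega))] at this
    linarith
  have h3 : clv u = 0 := by
    rw [h2, zero_smul, add_zero] at h1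
    have := sub_eq_self.1 h1
    exact this
  refine ⟨u, hu, clv_eq_zero_iff.1 h3, γ, hγ, ?_⟩
  rw [kap, show n = - nu s u by linarith]

/-- **F3.** `Ma s (h+1) ⊓ IA = Ka s (h+1) * Tor (s+1) h`. -/
theorem Ma_inf_IA {s h : ℕ} {φ : MulAut F} (hφ : φ ∈ Ma s (h + 1)) (h1 : φ ∈ IA) :
    ∃ u ∈ FS (s + 1) h, cl u = 1 ∧ ∃ ψ ∈ Tor (s + 1) h, φ = kap s u * ψ := by
  obtain ⟨u, hu, hu1, γ, hγ, rfl⟩ := Ma_fix_eb hφ (IA_act h1 _)
  refine ⟨u, hu, hu1, γ, ⟨hγ, ?_⟩, rfl⟩
  have := mul_mem (inv_mem (kap_mem_IA hu hu1)) h1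
  rwa [inv_mul_cancel_left] at this

end Pool.Agent.Torelli
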