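import Pool.Agent.Torelli.FPart.Sys

/-!
# Torelli / F1 : equivariance of a push system
-/

set_option autoImplicit false

namespace Pool.Agent.Torelli

variable {s : ℕ} {x y C : MulAut F} {e : ℤ}

/-- pushed boundary word of handle `s+1+k` -/
theorem PushSys.S_swap (hs : PushSys s x y C e) (k : ℕ) :
    (S (s + 1 + k) * GQ s x (k + 1) * (S (s + 1 + k))⁻¹ =
      (GQ s x (k + 1) * GQ s y (k + 1) * (GQ s x (k + 1))⁻¹ * (GQ s y (k + 1))⁻¹)⁻¹ * GQ s x k *
      (GQ s x (k + 1) * GQ s y (k + 1) * (GQ s x (k + 1))⁻¹ * (GQ s y (k + 1))⁻¹)) ∧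
    (S (s + 1 + k) * GQ s y (k + 1) * (S (s + 1 + k))⁻¹ =
      (GQ s x (k + 1) * GQ s y (k + 1) * (GQ s x (k + 1))⁻¹ * (GQ s y (k + 1))⁻¹)⁻¹ * GQ s y k *
      (GQ s x (k + 1) * GQ s y (k + 1) * (GQ s x (k + 1))⁻¹ * (GQ s y (k + 1))⁻¹)) := by
  induction k with
  | zero =>
    constructor
    · have := hs.t9
      simp only [GQ, add_zero]
      rw [this]
      group
    · have := hs.t10
      simp only [GQ, add_zero]
      rw [this]
      group
  | succ k ih =>
    set p := S (s + 1 + k) with hp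
    set q := S (s + 1 + (k + 1)) with hq
    have hq' : q = S (s + 1 + k + 1) := rfl
    have b1 : p * q * p = q * p * q := S_braid (s + 1 + k)
    have key : ∀ z ∈ M s 2, (p * q) * GQ s z k * (p * q)⁻¹ = GQ s z (k + 1) ∧
        (p * q) * GQ s z (k + 1) * (p * q)⁻¹ = GQ s z (k + 2) := by
      intro z hz
      constructor
      · have c1 : q * GQ s z k = GQ s z k * q :=
          GQ_commute_high hz k (s + 1 + (k + 1)) (by omega)
        calc (p * q) * GQ s z k * (p * q)⁻¹ = p * (q * GQ s z k) * q⁻¹ * p⁻¹ := by group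
          _ = p * GQ s z k * p⁻¹ := by rw [c1]; group
          _ = _ := rfl
      · have c1 : p * GQ s z (k + 2) = GQ s z (k + 2) * p :=
          GQ_commute_low hz (k + 2) (s + 1 + k) (by omega) (by omega)
        calc (p * q) * GQ s z (k + 1) * (p * q)⁻¹ = p * (q * GQ s z (k + 1) * q⁻¹) * p⁻¹ := by
              group
          _ = p * GQ s z (k + 2) * p⁻¹ := rfl
          _ = _ := by rw [c1]; group
    have kx := key x hs.hx
    have ky := key y hs.hy
    have kq : (p * q) * p * (p * q)⁻¹ = q := by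
      calc (p * q) * p * (p * q)⁻¹ = (p * q * p) * q⁻¹ * p⁻¹ := by group
        _ = q := by rw [b1]; group
    have conj_eq : ∀ u v : MulAut F, u = v → (p * q) * u * (p * q)⁻¹ = (p * q) * v * (p * q)⁻¹ :=
      fun u v h => by rw [h]
    generalize hσ : p * q = σ at *
    have expand3 : ∀ u v w' : MulAut F, σ * (u * v * w') * σ⁻¹ =
        (σ * u * σ⁻¹) * (σ * v * σ⁻¹) * (σ * w' * σ⁻¹) := by intro u v w'; group
    have expandi : ∀ u : MulAut F, σ * u⁻¹ * σ⁻¹ = (σ * u * σ⁻¹)⁻¹ := by intro u; group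
    have expand4 : ∀ u v u' v' : MulAut F, σ * (u * v * u' * v') * σ⁻¹ =
        (σ * u * σ⁻¹) * (σ * v * σ⁻¹) * (σ * u' * σ⁻¹) * (σ * v' * σ⁻¹) := by
      intro u v u' v'; group
    constructor
    · have h1 := conj_eq _ _ ih.1
      rw [expand3, expandi, kq, kx.2, expand3, expandi, expand4, expandi, expandi, kx.2, ky.2,
        kx.1] at h1
      exact h1
    · have h1 := conj_eq _ _ ih.2
      rw [expand3, expandi, kq, ky.2, expand3, expandi, expand4, expandi, expandi, kx.2, ky.2,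
        ky.1] at h1
      exact h1

theorem Ta_commute_GQ (hx : x ∈ M s 2) (k : ℕ) : Commute (Ta (s + 1)) (GQ s x (k + 1)) := by
  induction k with
  | zero =>
    have h1 : Commute (Ta (s + 1 + 1)) x :=
      (M_commute hx (Ta_mem_M (s := s + 2) (h := 1) (by omega) (by omega)) (Or.inr le_rfl)).symm
    have h2 := Ta_S (s + 1)
    show Ta (s + 1) * (S (s + 1) * x * (S (s + 1))⁻¹) = S (s + 1) * x * (S (s + 1))⁻¹ * Ta (s + 1)
    calc Ta (s + 1) * (S (s + 1) * x * (S (s + 1))⁻¹)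
        = (Ta (s + 1) * S (s + 1)) * x * (S (s + 1))⁻¹ := by group
      _ = S (s + 1) * (Ta (s + 1 + 1) * x) * (S (s + 1))⁻¹ := by rw [h2]; group
      _ = S (s + 1) * (x * Ta (s + 1 + 1)) * (S (s + 1))⁻¹ := by rw [h1.eq]
      _ = S (s + 1) * x * (S (s + 1))⁻¹ * (S (s + 1) * Ta (s + 1 + 1)) * (S (s + 1))⁻¹ := by group
      _ = _ := by rw [← h2]; group
  | succ k ih =>
    rw [GQ]
    have c1 : Commute (Ta (s + 1)) (S (s + 1 + (k + 1))) :=
      M_commute (Ta_mem_M (s := s + 1) (h := 1) (by omega) (by omega))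
        (S_mem (s + 1 + (k + 1)) 2 le_rfl) (Or.inr (by omega))
    exact (c1.mul_right ih).mul_right c1.inv_right

theorem Tb_commute_GQ (hx : x ∈ M s 2) (k : ℕ) : Commute (Tb (s + 1)) (GQ s x (k + 1)) := by
  induction k with
  | zero =>
    have h1 : Commute (Tb (s + 1 + 1)) x :=
      (M_commute hx (Tb_mem_M (s := s + 2) (h := 1) (by omega) (by omega)) (Or.inr le_rfl)).symm
    have h2 := Tb_S (s + 1)
    show Tb (s + 1) * (S (s + 1) * x * (S (s + 1))⁻¹) = S (s + 1) * x * (S (s + 1))⁻¹ * Tb (s + 1)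
    calc Tb (s + 1) * (S (s + 1) * x * (S (s + 1))⁻¹)
        = (Tb (s + 1) * S (s + 1)) * x * (S (s + 1))⁻¹ := by group
      _ = S (s + 1) * (Tb (s + 1 + 1) * x) * (S (s + 1))⁻¹ := by rw [h2]; group
      _ = S (s + 1) * (x * Tb (s + 1 + 1)) * (S (s + 1))⁻¹ := by rw [h1.eq]
      _ = S (s + 1) * x * (S (s + 1))⁻¹ * (S (s + 1) * Tb (s + 1 + 1)) * (S (s + 1))⁻¹ := by group
      _ = _ := by rw [← h2]; group
  | succ k ih =>
    rw [GQ]
    have c1 : Commute (Tb (s + 1)) (S (s + 1 + (k + 1))) :=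
      M_commute (Tb_mem_M (s := s + 1) (h := 1) (by omega) (by omega))
        (S_mem (s + 1 + (k + 1)) 2 le_rfl) (Or.inr (by omega))
    exact (c1.mul_right ih).mul_right c1.inv_right

theorem P_commute_GQ (hx : x ∈ M s 2) (k : ℕ) : Commute (P (s + 1)) (GQ s x (k + 2)) := by
  induction k with
  | zero =>
    have h1 : Commute (P (s + 1 + 1)) x :=
      (M_commute hx (P_mem_M (s := s + 2) (h := 2) (by omega) (by omega)) (Or.inr le_rfl)).symm
    have h2 := P_SS (s + 1)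
    have h3 : GQ s x (0 + 2) = (S (s + 1 + 1) * S (s + 1)) * x * (S (s + 1 + 1) * S (s + 1))⁻¹ := by
      show S (s + 1 + 1) * (S (s + 1) * x * (S (s + 1))⁻¹) * (S (s + 1 + 1))⁻¹ = _
      group
    rw [h3]
    generalize S (s + 1 + 1) * S (s + 1) = σ at *
    show P (s + 1) * (σ * x * σ⁻¹) = σ * x * σ⁻¹ * P (s + 1)
    calc P (s + 1) * (σ * x * σ⁻¹)
        = (P (s + 1) * σ) * x * σ⁻¹ := by group
      _ = σ * (P (s + 1 + 1) * x) * σ⁻¹ := by rw [h2]; group
      _ = σ * (x * P (s + 1 + 1)) * σ⁻¹ := by rw [h1.eq]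
      _ = σ * x * σ⁻¹ * (σ * P (s + 1 + 1)) * σ⁻¹ := by group
      _ = _ := by rw [← h2]; group
  | succ k ih =>
    rw [GQ]
    have c1 : Commute (P (s + 1)) (S (s + 1 + (k + 2))) :=
      M_commute (P_mem_M (s := s + 1) (h := 2) (by omega) (by omega))
        (S_mem (s + 1 + (k + 2)) 2 le_rfl) (Or.inr (by omega))
    exact (c1.mul_right ih).mul_right c1.inv_right

theorem PushSys.C_GQx (hs : PushSys s x y C e) (k : ℕ) : Commute C (GQ s x k) := by
  induction k with
  | zero => exact hs.Cx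
  | succ k ih =>
    rw [GQ]
    have c1 : Commute C (S (s + 1 + k)) :=
      M_commute hs.hC (S_mem (s + 1 + k) 2 le_rfl) (Or.inr (by omega))
    exact (c1.mul_right ih).mul_right c1.inv_right

theorem PushSys.C_GQy (hs : PushSys s x y C e) (k : ℕ) : Commute C (GQ s y k) := by
  induction k with
  | zero => exact hs.Cy
  | succ k ih =>
    rw [GQ]
    have c1 : Commute C (S (s + 1 + k)) :=
      M_commute hs.hC (S_mem (s + 1 + k) 2 le_rfl) (Or.inr (by omega))
    exact (c1.mul_right ih).mul_right c1.inv_right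

/-- `C` commutes with the whole image of `gpush`. -/
theorem PushSys.C_gpush (hs : PushSys s x y C e) (u : F) : Commute C (gpush s x y u) := by
  have h1 : gpush s x y u ∈ Subgroup.centralizer {C} := by
    refine FreeGroup.induction_on u ?_ ?_ ?_ ?_
    · rw [map_one]; exact Subgroup.one_mem _
    · intro n
      rw [Subgroup.mem_centralizer_singleton_iff]
      simp only [gpush, FreeGroup.lift_apply_of, GLt]
      split_ifs
      · simp
      · exact (hs.C_GQx _).symm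
      · exact (hs.C_GQy _).symm
    · intro n h; rw [map_inv]; exact Subgroup.inv_mem _ h
    · intro u v hu hv; rw [map_mul]; exact Subgroup.mul_mem _ hu hv
  rw [Subgroup.mem_centralizer_singleton_iff] at h1
  exact h1.symm

/-- The automorphisms in `M (s+1) h` with the equivariance property. -/
def PushSys.eqv (hs : PushSys s x y C e) (h : ℕ) : Subgroup (MulAut F) where
  carrier := {γ | γ ∈ M (s + 1) h ∧ ∀ u ∈ FS (s + 1) h, ∃ n : ℤ,
    γ * gpush s x y u * γ⁻¹ = gpush s x y (γ u) * C ^ n}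
  one_mem' := ⟨Subgroup.one_mem _, fun u _ => ⟨0, by simp⟩⟩
  mul_mem' := by
    rintro γ δ ⟨h1, h2⟩ ⟨h3, h4⟩
    refine ⟨Subgroup.mul_mem _ h1 h3, fun u hu => ?_⟩
    obtain ⟨n, hn⟩ := h4 u hu
    obtain ⟨m, hm⟩ := h2 (δ u) (M_FS h3 hu)
    refine ⟨m + n, ?_⟩
    have c1 : Commute C γ := M_commute hs.hC h1 (Or.inr le_rfl)
    have c2 : C ^ n * γ⁻¹ = γ⁻¹ * C ^ n := (c1.zpow_left n).inv_right.eq
    calc γ * δ * gpush s x y u * (γ * δ)⁻¹ = γ * (δ * gpush s x y u * δ⁻¹) * γ⁻¹ := by group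
      _ = γ * gpush s x y (δ u) * (C ^ n * γ⁻¹) := by rw [hn]; group
      _ = (γ * gpush s x y (δ u) * γ⁻¹) * C ^ n := by rw [c2]; group
      _ = gpush s x y ((γ * δ) u) * C ^ (m + n) := by
        rw [hm, zpow_add, MulAut.mul_apply]; group
  inv_mem' := by
    rintro γ ⟨h1, h2⟩
    refine ⟨Subgroup.inv_mem _ h1, fun u hu => ?_⟩
    obtain ⟨n, hn⟩ := h2 (γ⁻¹ u) (M_FS (Subgroup.inv_mem _ h1) hu)
    refine ⟨-n, ?_⟩
    have c1 : Commute C γ := M_commute hs.hC h1 (Or.inr le_rfl)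
    have c2 : γ⁻¹ * C ^ n = C ^ n * γ⁻¹ := ((c1.zpow_left n).inv_right).symm.eq
    have c3 : Commute (C ^ n) (gpush s x y (γ⁻¹ u)) := (hs.C_gpush _).zpow_left n
    rw [MulAut.apply_inv_self] at hn
    have h5 : gpush s x y u = γ * gpush s x y (γ⁻¹ u) * γ⁻¹ * C ^ (-n) := by
      rw [hn, zpow_neg]; group
    rw [inv_inv]
    calc γ⁻¹ * gpush s x y u * γ = gpush s x y (γ⁻¹ u) * γ⁻¹ * (C ^ (-n) * γ) := by
          rw [h5]; group
      _ = gpush s x y (γ⁻¹ u) * γ⁻¹ * (γ * C ^ (-n)) := by rw [(c1.zpow_left (-n)).eq]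
      _ = _ := by group

theorem PushSys.mem_eqv_of (hs : PushSys s x y C e) {h : ℕ} {γ : MulAut F} (hγ : γ ∈ M (s + 1) h)
    (ha : ∀ k, k < h → ∃ n : ℤ, γ * GQ s x k * γ⁻¹ = gpush s x y (γ (a (s + 1 + k))) * C ^ n)
    (hb : ∀ k, k < h → ∃ n : ℤ, γ * GQ s y k * γ⁻¹ = gpush s x y (γ (b (s + 1 + k))) * C ^ n) :
    γ ∈ hs.eqv h := by
  refine ⟨hγ, fun u hu => ?_⟩
  let K : Subgroup F :=
    { carrier := {u | ∃ n : ℤ, γ * gpush s x y u * γ⁻¹ = gpush s x y (γ u) * C ^ n}
      one_mem' := ⟨0, by simp⟩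
      mul_mem' := by
        rintro u v ⟨n, hn⟩ ⟨m, hm⟩
        refine ⟨n + m, ?_⟩
        have c3 : C ^ n * gpush s x y (γ v) = gpush s x y (γ v) * C ^ n :=
          ((hs.C_gpush _).zpow_left n).eq
        calc γ * gpush s x y (u * v) * γ⁻¹
            = (γ * gpush s x y u * γ⁻¹) * (γ * gpush s x y v * γ⁻¹) := by rw [map_mul]; group
          _ = gpush s x y (γ u) * (C ^ n * gpush s x y (γ v)) * C ^ m := by rw [hn, hm]; group
          _ = _ := by rw [c3, map_mul, map_mul, zpow_add]; group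
      inv_mem' := by
        rintro u ⟨n, hn⟩
        refine ⟨-n, ?_⟩
        have c3 : C ^ (-n) * gpush s x y (γ u)⁻¹ = gpush s x y (γ u)⁻¹ * C ^ (-n) :=
          ((hs.C_gpush _).zpow_left (-n)).eq
        calc γ * gpush s x y u⁻¹ * γ⁻¹ = (γ * gpush s x y u * γ⁻¹)⁻¹ := by rw [map_inv]; group
          _ = C ^ (-n) * gpush s x y (γ u)⁻¹ := by rw [hn, map_inv, zpow_neg]; group
          _ = _ := by rw [c3, map_inv γ] }
  have hK : FS (s + 1) h ≤ K := by
    refine FS_le ?_ ?_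
    · intro i h1 h2
      obtain ⟨k, rfl⟩ := Nat.exists_eq_add_of_le h1
      obtain ⟨n, hn⟩ := ha k (by omega)
      exact ⟨n, by rw [gpush_a]; exact hn⟩
    · intro i h1 h2
      obtain ⟨k, rfl⟩ := Nat.exists_eq_add_of_le h1
      obtain ⟨n, hn⟩ := hb k (by omega)
      exact ⟨n, by rw [gpush_b]; exact hn⟩
  exact hK hu

theorem PushSys.gpush_a' (k : ℕ) : gpush s x y (a (s + 1 + k)) = GQ s x k := gpush_a s x y k
theorem PushSys.gpush_b' (k : ℕ) : gpush s x y (b (s + 1 + k)) = GQ s y k := gpush_b s x y k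
theorem gpush_a0 (s : ℕ) (x y : MulAut F) : gpush s x y (a (s + 1)) = x := gpush_a s x y 0
theorem gpush_b0 (s : ℕ) (x y : MulAut F) : gpush s x y (b (s + 1)) = y := gpush_b s x y 0
theorem gpush_a1 (s : ℕ) (x y : MulAut F) : gpush s x y (a (s + 1 + 1)) =
    S (s + 1) * x * (S (s + 1))⁻¹ := gpush_a s x y 1
theorem gpush_b1 (s : ℕ) (x y : MulAut F) : gpush s x y (b (s + 1 + 1)) =
    S (s + 1) * y * (S (s + 1))⁻¹ := gpush_b s x y 1

theorem conj_of_commute {γ g : MulAut F} (h : Commute γ g) : γ * g * γ⁻¹ = g := by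
  rw [h.eq]; group

theorem PushSys.Ta_eqv (hs : PushSys s x y C e) {h : ℕ} (hh : 1 ≤ h) : Ta (s + 1) ∈ hs.eqv h := by
  refine hs.mem_eqv_of (Ta_mem_M le_rfl (by omega)) ?_ ?_
  · intro k hk
    refine ⟨0, ?_⟩
    rw [Ta_a, gpush_a, zpow_zero, mul_one]
    cases k with
    | zero => exact hs.t1
    | succ k => exact conj_of_commute (Ta_commute_GQ hs.hx k)
  · intro k hk
    cases k with
    | zero =>
      refine ⟨e, ?_⟩
      have h1 : Ta (s + 1) (b (s + 1 + 0)) = b (s + 1) * a (s + 1) := Ta_b (s + 1)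
      rw [h1, map_mul, gpush_a0, gpush_b0]
      exact hs.t2
    | succ k =>
      refine ⟨0, ?_⟩
      rw [Ta_b_ne (by omega), gpush_b, zpow_zero, mul_one]
      exact conj_of_commute (Ta_commute_GQ hs.hy k)

theorem PushSys.Tb_eqv (hs : PushSys s x y C e) {h : ℕ} (hh : 1 ≤ h) : Tb (s + 1) ∈ hs.eqv h := by
  refine hs.mem_eqv_of (Tb_mem_M le_rfl (by omega)) ?_ ?_
  · intro k hk
    cases k with
    | zero =>
      refine ⟨-e, ?_⟩
      have h1 : Tb (s + 1) (a (s + 1 + 0)) = a (s + 1) * b (s + 1) := Tb_a (s + 1)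
      rw [h1, map_mul, gpush_a0, gpush_b0]
      exact hs.t3
    | succ k =>
      refine ⟨0, ?_⟩
      rw [Tb_a_ne (by omega), gpush_a, zpow_zero, mul_one]
      exact conj_of_commute (Tb_commute_GQ hs.hx k)
  · intro k hk
    refine ⟨0, ?_⟩
    rw [Tb_b, gpush_b, zpow_zero, mul_one]
    cases k with
    | zero => exact hs.t4
    | succ k => exact conj_of_commute (Tb_commute_GQ hs.hy k)

theorem PushSys.P_eqv (hs : PushSys s x y C e) {h : ℕ} (hh : 2 ≤ h) : P (s + 1) ∈ hs.eqv h := by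
  refine hs.mem_eqv_of (P_mem_M le_rfl (by omega)) ?_ ?_
  · intro k hk
    refine ⟨0, ?_⟩
    match k with
    | 0 =>
      have h1 : P (s + 1) (a (s + 1 + 0)) = a (s + 1) := P_a (s + 1)
      rw [h1, gpush_a0, zpow_zero, mul_one]
      exact hs.t5
    | 1 =>
      rw [P_x, d]
      simp only [map_mul, map_inv, gpush_a0, gpush_b0, gpush_a1, zpow_zero, mul_one]
      have h7 := hs.t7
      show P (s + 1) * (S (s + 1) * x * (S (s + 1))⁻¹) * (P (s + 1))⁻¹ = _
      rw [h7]; group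
    | k + 2 =>
      rw [P_a_ne (by omega), gpush_a, zpow_zero, mul_one]
      exact conj_of_commute (P_commute_GQ hs.hx k)
  · intro k hk
    match k with
    | 0 =>
      refine ⟨0, ?_⟩
      have h1 : P (s + 1) (b (s + 1 + 0)) = (a (s + 1 + 1))⁻¹ * b (s + 1) := P_b (s + 1)
      rw [h1, map_mul, map_inv, gpush_a1, gpush_b0, zpow_zero, mul_one]
      exact hs.t6
    | 1 =>
      refine ⟨-(2 * e), ?_⟩
      rw [P_y, d]
      simp only [map_mul, map_inv, gpush_a0, gpush_b0, gpush_a1, gpush_b1]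
      have h8 := hs.t8
      show P (s + 1) * (S (s + 1) * y * (S (s + 1))⁻¹) * (P (s + 1))⁻¹ = _
      rw [h8]
    | k + 2 =>
      refine ⟨0, ?_⟩
      rw [P_b_ne (by omega) (by omega), gpush_b, zpow_zero, mul_one]
      exact conj_of_commute (P_commute_GQ hs.hy k)

theorem PushSys.S_eqv (hs : PushSys s x y C e) {h i : ℕ} (h1 : s + 1 ≤ i)
    (h2 : i + 1 < s + 1 + h) : S i ∈ hs.eqv h := by
  have hmem : S i ∈ M i 2 := S_mem i 2 le_rfl
  obtain ⟨j, rfl⟩ := Nat.exists_eq_add_of_le h1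
  refine hs.mem_eqv_of (S_mem_M h1 h2) ?_ ?_
  · intro k hk
    refine ⟨0, ?_⟩
    rw [zpow_zero, mul_one]
    rcases Nat.lt_trichotomy k j with hkj | rfl | hkj
    · rw [M_fix_a hmem (Or.inl (by omega)), gpush_a]
      exact conj_of_commute (GQ_commute_high hs.hx k _ (by omega))
    · rw [S_a0, show s + 1 + k + 1 = s + 1 + (k + 1) from rfl, gpush_a]
      rfl
    · obtain ⟨m, rfl⟩ := Nat.exists_eq_add_of_lt hkj
      cases m with
      | zero =>
        have e1 : S (s + 1 + j) (a (s + 1 + (j + 0 + 1))) =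
            (H (s + 1 + (j + 1)))⁻¹ * a (s + 1 + j) * H (s + 1 + (j + 1)) := S_a1 (s + 1 + j)
        rw [e1, H]
        simp only [map_mul, map_inv, gpush_a, gpush_b]
        exact (hs.S_swap j).1
      | succ m =>
        rw [M_fix_a hmem (Or.inr (by omega)), gpush_a]
        exact conj_of_commute (GQ_commute_low hs.hx _ _ (by omega) (by omega))
  · intro k hk
    refine ⟨0, ?_⟩
    rw [zpow_zero, mul_one]
    rcases Nat.lt_trichotomy k j with hkj | rfl | hkj
    · rw [M_fix_b hmem (Or.inl (by omega)), gpush_b]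
      exact conj_of_commute (GQ_commute_high hs.hy k _ (by omega))
    · rw [S_b0, show s + 1 + k + 1 = s + 1 + (k + 1) from rfl, gpush_b]
      rfl
    · obtain ⟨m, rfl⟩ := Nat.exists_eq_add_of_lt hkj
      cases m with
      | zero =>
        have e1 : S (s + 1 + j) (b (s + 1 + (j + 0 + 1))) =
            (H (s + 1 + (j + 1)))⁻¹ * b (s + 1 + j) * H (s + 1 + (j + 1)) := S_b1 (s + 1 + j)
        rw [e1, H]
        simp only [map_mul, map_inv, gpush_a, gpush_b]
        exact (hs.S_swap j).2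
      | succ m =>
        rw [M_fix_b hmem (Or.inr (by omega)), gpush_b]
        exact conj_of_commute (GQ_commute_low hs.hy _ _ (by omega) (by omega))

/-- **F1.** Equivariance of a push system. -/
theorem PushSys.equiv (hs : PushSys s x y C e) {h : ℕ} {γ : MulAut F} (hγ : γ ∈ M (s + 1) h)
    {u : F} (hu : u ∈ FS (s + 1) h) :
    ∃ n : ℤ, γ * gpush s x y u * γ⁻¹ = gpush s x y (γ u) * C ^ n := by
  have : M (s + 1) h ≤ hs.eqv h :=
    M_le_of_swap (fun h1 => hs.Ta_eqv h1) (fun h1 => hs.Tb_eqv h1) (fun h1 => hs.P_eqv h1)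
      (fun i h1 h2 => hs.S_eqv h1 h2)
  exact (this hγ).2 u hu

theorem PushSys.gpush_mem (hs : PushSys s x y C e) {h : ℕ} {u : F} (hu : u ∈ FS (s + 1) h) :
    gpush s x y u ∈ M s (h + 1) := by
  have : FS (s + 1) h ≤ (M s (h + 1)).comap (gpush s x y) := by
    refine FS_le ?_ ?_
    · intro i h1 h2
      obtain ⟨k, rfl⟩ := Nat.exists_eq_add_of_le h1
      rw [Subgroup.mem_comap, gpush_a]
      exact M_mono le_rfl (by omega) (GQ_mem hs.hx k)
    · intro i h1 h2
      obtain ⟨k, rfl⟩ := Nat.exists_eq_add_of_le h1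
      rw [Subgroup.mem_comap, gpush_b]
      exact M_mono le_rfl (by omega) (GQ_mem hs.hy k)
  exact this hu

end Pool.Agent.Torelli
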