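import Pool.Agent.Torelli.FPart.Inst
import Pool.Agent.Torelli.SP.Witt

/-!
# Torelli / F2 : homological action of the point pushing maps, `kap`
-/

set_option autoImplicit false

namespace Pool.Agent.Torelli

/-- `eb s ↦ eb s - c + n ea s`, `v ↦ v - ω(c, v) ea s` -/
noncomputable def TT (s : ℕ) (c : Lat) (n : ℤ) (v : Lat) : Lat :=
  v + v (2 * s + 1) • (-c + n • ea s) - om c v • ea s

theorem om_of_mem_Vs_ea {s h : ℕ} {c : Lat} (hc : c ∈ Vs (s + 1) h) : om c (ea s) = 0 := by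
  rw [om_ea_right, hc _ (Or.inl (by omega)), neg_zero]

theorem om_of_mem_Vs_eb {s h : ℕ} {c : Lat} (hc : c ∈ Vs (s + 1) h) : om c (eb s) = 0 := by
  rw [om_eb_right, hc _ (Or.inl (by omega))]

theorem TT_comp {s h : ℕ} {c c' : Lat} (hc : c ∈ Vs (s + 1) h) (hc' : c' ∈ Vs (s + 1) h)
    (n n' : ℤ) (v : Lat) : TT s c n (TT s c' n' v) = TT s (c + c') (n + n' + om c c') v := by
  have e1 : om c (ea s) = 0 := om_of_mem_Vs_ea hc
  have e2 : (TT s c' n' v) (2 * s + 1) = v (2 * s + 1) := by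
    simp only [TT, Finsupp.sub_apply, Finsupp.add_apply, Finsupp.smul_apply, Finsupp.neg_apply,
      ea_odd, smul_eq_mul, mul_zero, hc' (2 * s + 1) (Or.inl (by omega))]
    ring
  have e3 : om c (TT s c' n' v) = om c v - v (2 * s + 1) * om c c' := by
    simp only [TT, map_sub, map_add, map_zsmul, map_neg, e1, smul_eq_mul]
    ring
  rw [TT, e2, e3]
  simp only [TT, map_add, AddMonoidHom.add_apply]
  ext m
  simp only [Finsupp.sub_apply, Finsupp.add_apply, Finsupp.smul_apply, Finsupp.neg_apply,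
    smul_eq_mul]
  ring

theorem TT_zero (s : ℕ) (v : Lat) : TT s 0 0 v = v := by
  simp [TT]

theorem TT_conj {s h : ℕ} {γ : MulAut F} (hγ : γ ∈ M (s + 1) h) (c : Lat) (n : ℤ) (v : Lat) :
    act γ (TT s c n (act γ⁻¹ v)) = TT s (act γ c) n v := by
  have e1 : (act γ⁻¹ v) (2 * s + 1) = v (2 * s + 1) := by
    rw [← om_ea, ← om_ea]
    have h1 := M_om hγ (ea s) (act γ⁻¹ v)
    rw [act_act_inv, M_fix_ea hγ (Or.inl (by omega))] at h1
    exact h1.symm
  have e2 : om c (act γ⁻¹ v) = om (act γ c) v := by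
    have h1 := M_om hγ c (act γ⁻¹ v)
    rw [act_act_inv] at h1
    exact h1.symm
  have e3 : act γ (ea s) = ea s := M_fix_ea hγ (Or.inl (by omega))
  simp only [TT, e1, e2, map_sub, map_add, map_zsmul, map_neg, e3, act_act_inv]

theorem act_P_TT (s : ℕ) (v : Lat) : act (P s) v = TT s (ea (s + 1)) 0 v := by
  rw [act_P, TT, om_ea]
  ext m
  simp only [Finsupp.sub_apply, Finsupp.add_apply, Finsupp.smul_apply, Finsupp.neg_apply,
    smul_eq_mul]
  ring

theorem act_GQ {s : ℕ} {x : MulAut F} {c : ℕ → Lat} (h0 : ∀ v, act x v = TT s (c 0) 0 v)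
    (hc : ∀ k, act (S (s + 1 + k)) (c k) = c (k + 1)) (k : ℕ) (v : Lat) :
    act (GQ s x k) v = TT s (c k) 0 v := by
  induction k generalizing v with
  | zero => exact h0 v
  | succ k ih =>
    rw [GQ, act_mul, act_mul, ih, TT_conj (h := k + 2) (S_mem_M (by omega) (by omega)), hc]

theorem act_Qa (s k : ℕ) (v : Lat) : act (Qa s k) v = TT s (ea (s + 1 + k)) 0 v := by
  rw [Qa_eq_GQ]
  exact act_GQ (c := fun k => ea (s + 1 + k)) (act_P_TT s)
    (fun k => by rw [act_ea, S_a0, clv_a]; rfl) k v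

theorem act_inv_of_TT {s h : ℕ} {x : MulAut F} {c : Lat} (hc : c ∈ Vs (s + 1) h) {n : ℤ}
    (hx : ∀ v, act x v = TT s c n v) (v : Lat) : act x⁻¹ v = TT s (-c) (-n) v := by
  apply act_inj x
  rw [act_act_inv, hx, TT_comp hc (neg_mem hc)]
  rw [map_neg, om_self]
  simp [TT_zero]

theorem act_Qb0 (s : ℕ) (v : Lat) :
    act ((w (s + 1) * P s * (w (s + 1))⁻¹)⁻¹) v = TT s (eb (s + 1)) 0 v := by
  have h1 : ∀ v, act (w (s + 1) * P s * (w (s + 1))⁻¹) v = TT s (- eb (s + 1)) 0 v := by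
    intro v
    rw [act_mul, act_mul, act_P_TT, TT_conj (h := 1) (w_mem_M le_rfl (by omega)), act_ea, w_a0,
      clv_inv, clv_b]
  have h2 := act_inv_of_TT (h := 1) (neg_mem (eb_mem_Vs le_rfl (by omega))) h1 v
  rw [h2, neg_neg, neg_zero]

theorem act_Qb (s k : ℕ) (v : Lat) : act (Qb s k) v = TT s (eb (s + 1 + k)) 0 v := by
  rw [Qb_eq_GQ]
  exact act_GQ (c := fun k => eb (s + 1 + k)) (act_Qb0 s)
    (fun k => by rw [act_eb, S_b0, clv_b]; rfl) k v

theorem push_a' (s k : ℕ) : push s (a (s + 1 + k)) = Qa s k := by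
  rw [push_eq_gpush, gpush_a, Qa_eq_GQ]

theorem push_b' (s k : ℕ) : push s (b (s + 1 + k)) = Qb s k := by
  rw [push_eq_gpush, gpush_b, Qb_eq_GQ]

theorem push_a0 (s : ℕ) : push s (a (s + 1)) = P s := push_a' s 0

theorem clv_mem_Vs {s h : ℕ} {u : F} (hu : u ∈ FS s h) : clv u ∈ Vs s h := by
  have : FS s h ≤ (Vs s h).toSubgroup.comap cl := by
    refine FS_le ?_ ?_
    · intro i h1 h2
      show clv (a i) ∈ Vs s h
      rw [clv_a]; exact ea_mem_Vs h1 h2
    · intro i h1 h2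
      show clv (b i) ∈ Vs s h
      rw [clv_b]; exact eb_mem_Vs h1 h2
  exact this hu

theorem exists_TT {s h : ℕ} {u : F} (hu : u ∈ FS (s + 1) h) :
    ∃ n : ℤ, ∀ v, act (push s u) v = TT s (clv u) n v := by
  let K : Subgroup F :=
    { carrier := {u | clv u ∈ Vs (s + 1) h ∧ ∃ n : ℤ, ∀ v, act (push s u) v = TT s (clv u) n v}
      one_mem' := ⟨by rw [clv_one]; exact zero_mem _, 0, fun v => by
        rw [map_one, act_one, clv_one, TT_zero]⟩
      mul_mem' := by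
        rintro u v ⟨hu, n, hn⟩ ⟨hv, m, hm⟩
        refine ⟨by rw [clv_mul]; exact add_mem hu hv, n + m + om (clv u) (clv v), fun z => ?_⟩
        rw [map_mul, act_mul, hm, hn, TT_comp hu hv, clv_mul]
      inv_mem' := by
        rintro u ⟨hu, n, hn⟩
        refine ⟨by rw [clv_inv]; exact neg_mem hu, -n, fun z => ?_⟩
        rw [map_inv, act_inv_of_TT hu hn, clv_inv] }
  have hK : FS (s + 1) h ≤ K := by
    refine FS_le ?_ ?_
    · intro i h1 h2
      obtain ⟨k, rfl⟩ := Nat.exists_eq_add_of_le h1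
      refine ⟨by rw [clv_a]; exact ea_mem_Vs h1 h2, 0, fun v => ?_⟩
      rw [push_a', act_Qa, clv_a]
    · intro i h1 h2
      obtain ⟨k, rfl⟩ := Nat.exists_eq_add_of_le h1
      refine ⟨by rw [clv_b]; exact eb_mem_Vs h1 h2, 0, fun v => ?_⟩
      rw [push_b', act_Qb, clv_b]
  exact (hK hu).2

theorem TT_eb_apply {s h : ℕ} {c : Lat} (hc : c ∈ Vs (s + 1) h) (n : ℤ) :
    (TT s c n (eb s)) (2 * s) = n := by
  simp only [TT, Finsupp.sub_apply, Finsupp.add_apply, Finsupp.smul_apply, Finsupp.neg_apply,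
    smul_eq_mul, eb_even, eb_odd, if_true, ea_even, om_of_mem_Vs_eb hc,
    hc (2 * s) (Or.inl (by omega))]
  ring

/-- **F2.** The homological action of `push s u`. -/
theorem act_push {s h : ℕ} {u : F} (hu : u ∈ FS (s + 1) h) (v : Lat) :
    act (push s u) v = TT s (clv u) (nu s u) v := by
  obtain ⟨n, hn⟩ := exists_TT hu
  have : nu s u = n := by
    show clv (push s u (b s)) (2 * s) = n
    rw [← act_eb, hn, TT_eb_apply (clv_mem_Vs hu)]
  rw [this]
  exact hn v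

theorem TT_inj {s h : ℕ} {c c' : Lat} (hc : c ∈ Vs (s + 1) h) (hc' : c' ∈ Vs (s + 1) h) {n n' : ℤ}
    (he : TT s c n (eb s) = TT s c' n' (eb s)) : c = c' ∧ n = n' := by
  have h1 : n = n' := by
    have := DFunLike.congr_fun he (2 * s)
    rwa [TT_eb_apply hc, TT_eb_apply hc'] at this
  subst h1
  refine ⟨?_, rfl⟩
  simp only [TT, om_of_mem_Vs_eb hc, om_of_mem_Vs_eb hc', eb_odd, if_true, one_smul, zero_smul,
    sub_zero] at he
  have h2 := add_right_cancel (add_left_cancel he)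
  exact neg_injective h2

theorem nu_mul {s h : ℕ} {u v : F} (hu : u ∈ FS (s + 1) h) (hv : v ∈ FS (s + 1) h) :
    nu s (u * v) = nu s u + nu s v + om (clv u) (clv v) := by
  have h1 := act_push (mul_mem hu hv) (eb s)
  rw [map_mul, act_mul, act_push hv, act_push hu, TT_comp (clv_mem_Vs hu) (clv_mem_Vs hv)] at h1
  exact (TT_inj (add_mem (clv_mem_Vs hu) (clv_mem_Vs hv)) (clv_mem_Vs (mul_mem hu hv)) h1).2.symm

theorem nu_one (s : ℕ) : nu s 1 = 0 := by
  show clv (push s 1 (b s)) (2 * s) = 0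
  rw [map_one, MulAut.one_apply, clv_b, eb_even]

theorem nu_inv {s h : ℕ} {u : F} (hu : u ∈ FS (s + 1) h) : nu s u⁻¹ = - nu s u := by
  have h1 := nu_mul hu (inv_mem hu)
  rw [mul_inv_cancel, nu_one, clv_inv, map_neg, om_self] at h1
  linarith

theorem act_Ta_TT (s : ℕ) (n : ℤ) (v : Lat) : act (Ta s ^ n) v = TT s 0 n v := by
  have h0 : ∀ n : ℤ, ∀ v, TT s 0 n v = v + (n * v (2 * s + 1)) • ea s := by
    intro n v
    rw [TT]
    ext m
    simp only [Finsupp.sub_apply, Finsupp.add_apply, Finsupp.smul_apply, Finsupp.neg_apply,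
      smul_eq_mul, map_zero, AddMonoidHom.zero_apply, Finsupp.zero_apply]
    ring
  have h1 : ∀ v, act (Ta s) v = TT s 0 1 v := by
    intro v
    rw [act_Ta, h0, one_mul]
  have hz : (0 : Lat) ∈ Vs (s + 1) 0 := zero_mem _
  have h2 : ∀ n : ℕ, ∀ v, act (Ta s ^ n) v = TT s 0 n v := by
    intro n
    induction n with
    | zero => intro v; rw [pow_zero, act_one]; simp [TT_zero]
    | succ n ih =>
      intro v
      rw [pow_succ, act_mul, h1, ih, TT_comp hz hz]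
      simp
  cases n with
  | ofNat n =>
    have := h2 n v
    simpa using this
  | negSucc n =>
    rw [zpow_negSucc, act_inv_of_TT hz (h2 (n + 1))]
    simp [Int.negSucc_eq]

theorem act_push_Ta {s h : ℕ} {u : F} (hu : u ∈ FS (s + 1) h) (n : ℤ) (v : Lat) :
    act (push s u * Ta s ^ n) v = TT s (clv u) (nu s u + n) v := by
  rw [act_mul, act_Ta_TT, act_push hu, TT_comp (clv_mem_Vs hu) (zero_mem _)]
  simp

theorem push_mem {s h : ℕ} {u : F} (hu : u ∈ FS (s + 1) h) : push s u ∈ M s (h + 1) := by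
  rw [push_eq_gpush]
  exact (pushSys_P s).gpush_mem hu

theorem Ta_commute_push (s : ℕ) (u : F) : Commute (Ta s) (push s u) := by
  rw [push_eq_gpush]
  exact (pushSys_P s).C_gpush u

theorem Ta_commute_M {s h : ℕ} {γ : MulAut F} (hγ : γ ∈ M (s + 1) h) : Commute (Ta s) γ :=
  M_commute (Ta_mem_M (s := s) (h := 1) le_rfl (by omega)) hγ (Or.inr le_rfl)

/-- equivariance of point pushing -/
theorem push_conj {s h : ℕ} {γ : MulAut F} (hγ : γ ∈ M (s + 1) h) {u : F}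
    (hu : u ∈ FS (s + 1) h) : ∃ n : ℤ, γ * push s u * γ⁻¹ = push s (γ u) * Ta s ^ n := by
  rw [push_eq_gpush]
  exact (pushSys_P s).equiv hγ hu

/-- equivariance of handle pushing -/
theorem dpush_conj {s h : ℕ} {γ : MulAut F} (hγ : γ ∈ M (s + 1) h) {u : F}
    (hu : u ∈ FS (s + 1) h) : ∃ n : ℤ, γ * dpush s u * γ⁻¹ = dpush s (γ u) * TD s ^ n :=
  (pushSys_D s).equiv hγ hu

theorem push_Ta_mem_IA {s h : ℕ} {u : F} (hu : u ∈ FS (s + 1) h) {n : ℤ} :
    push s u * Ta s ^ n ∈ IA ↔ cl u = 1 ∧ n = - nu s u := by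
  rw [mem_IA_iff_act]
  constructor
  · intro h1
    have h2 := h1 (eb s)
    rw [act_push_Ta hu] at h2
    have h3 : TT s (clv u) (nu s u + n) (eb s) = TT s 0 0 (eb s) := by rw [h2, TT_zero]
    obtain ⟨h4, h5⟩ := TT_inj (clv_mem_Vs hu) (zero_mem _) h3
    exact ⟨clv_eq_zero_iff.1 h4, by linarith⟩
  · rintro ⟨h1, h2⟩ v
    rw [act_push_Ta hu, h2, clv_eq_zero_iff.2 h1, add_neg_cancel, TT_zero]

theorem kap_mem_IA {s h : ℕ} {u : F} (hu : u ∈ FS (s + 1) h) (h1 : cl u = 1) : kap s u ∈ IA :=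
  (push_Ta_mem_IA hu).2 ⟨h1, rfl⟩

theorem kap_mem_Tor {s h : ℕ} {u : F} (hu : u ∈ FS (s + 1) h) (h1 : cl u = 1) :
    kap s u ∈ Tor s (h + 1) :=
  ⟨mul_mem (push_mem hu) (zpow_mem (Ta_mem_M le_rfl (by omega)) _), kap_mem_IA hu h1⟩

theorem eq_kap_of_IA {s h : ℕ} {u : F} (hu : u ∈ FS (s + 1) h) {n : ℤ}
    (h1 : push s u * Ta s ^ n ∈ IA) : cl u = 1 ∧ push s u * Ta s ^ n = kap s u := by
  obtain ⟨h2, h3⟩ := (push_Ta_mem_IA hu).1 h1
  exact ⟨h2, by rw [kap, h3]⟩

theorem kap_one' (s : ℕ) : kap s 1 = 1 := by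
  rw [kap, nu_one, map_one, neg_zero, zpow_zero, mul_one]

theorem kap_mul {s h : ℕ} {u v : F} (hu : u ∈ FS (s + 1) h) (hv : v ∈ FS (s + 1) h)
    (h1 : cl u = 1) : kap s (u * v) = kap s u * kap s v := by
  have h2 : clv u = 0 := clv_eq_zero_iff.2 h1
  have c := ((Ta_commute_push s v).zpow_left (-nu s u)).eq
  rw [kap, kap, kap, nu_mul hu hv, h2, map_zero, AddMonoidHom.zero_apply, add_zero, map_mul,
    neg_add, zpow_add]
  calc push s u * push s v * (Ta s ^ (-nu s u) * Ta s ^ (-nu s v))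
      = push s u * (push s v * Ta s ^ (-nu s u)) * Ta s ^ (-nu s v) := by group
    _ = push s u * (Ta s ^ (-nu s u) * push s v) * Ta s ^ (-nu s v) := by rw [c]
    _ = _ := by group

theorem kap_inv' {s h : ℕ} {u : F} (hu : u ∈ FS (s + 1) h) (h1 : cl u = 1) :
    kap s u⁻¹ = (kap s u)⁻¹ := by
  rw [eq_inv_iff_mul_eq_one, ← kap_mul (inv_mem hu) hu (by rw [map_inv, h1, inv_one]),
    inv_mul_cancel, kap_one']

theorem kap_conj {s h : ℕ} {γ : MulAut F} (hγ : γ ∈ M (s + 1) h) {u : F}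
    (hu : u ∈ FS (s + 1) h) (h1 : cl u = 1) : γ * kap s u * γ⁻¹ = kap s (γ u) := by
  obtain ⟨n, hn⟩ := push_conj hγ hu
  have c := ((Ta_commute_M hγ).zpow_left (-nu s u)).eq
  have e : γ * kap s u * γ⁻¹ = push s (γ u) * Ta s ^ (n + -nu s u) := by
    calc γ * kap s u * γ⁻¹ = γ * push s u * (Ta s ^ (-nu s u) * γ⁻¹) := by rw [kap]; group
      _ = γ * push s u * (γ⁻¹ * Ta s ^ (-nu s u)) := by
        rw [(((Ta_commute_M hγ).zpow_left (-nu s u)).inv_right).eq]
      _ = (γ * push s u * γ⁻¹) * Ta s ^ (-nu s u) := by group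
      _ = _ := by rw [hn, zpow_add]; group
  have h2 : γ * kap s u * γ⁻¹ ∈ IA := IA_normal.conj_mem _ (kap_mem_IA hu h1) γ
  rw [e] at h2 ⊢
  exact (eq_kap_of_IA (M_FS hγ hu) h2).2

theorem kap_conj_push {s h : ℕ} {u v : F} (hu : u ∈ FS (s + 1) h) (hv : v ∈ FS (s + 1) h)
    (h1 : cl u = 1) : push s v * kap s u * (push s v)⁻¹ = kap s (v * u * v⁻¹) := by
  have c := (((Ta_commute_push s v).zpow_left (-nu s u)).inv_right).eq
  have e : push s v * kap s u * (push s v)⁻¹ = push s (v * u * v⁻¹) * Ta s ^ (-nu s u) := by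
    calc push s v * kap s u * (push s v)⁻¹
        = push s v * push s u * (Ta s ^ (-nu s u) * (push s v)⁻¹) := by rw [kap]; group
      _ = push s v * push s u * ((push s v)⁻¹ * Ta s ^ (-nu s u)) := by rw [c]
      _ = _ := by rw [map_mul, map_mul, map_inv]; group
  have h2 : push s v * kap s u * (push s v)⁻¹ ∈ IA :=
    IA_normal.conj_mem _ (kap_mem_IA hu h1) _
  rw [e] at h2 ⊢
  exact (eq_kap_of_IA (mul_mem (mul_mem hv hu) (inv_mem hv)) h2).2

theorem Ta_commute_kap (s : ℕ) (u : F) : Commute (Ta s) (kap s u) :=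
  (Ta_commute_push s u).mul_right ((Commute.refl (Ta s)).zpow_right _)

end Pool.Agent.Torelli
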