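import Pool.Agent.Torelli.FPart.Equiv

/-!
# Torelli / F1 : the two push systems (point pushing and handle pushing)
-/

set_option autoImplicit false

namespace Pool.Agent.Torelli

/-- point pushing -/
theorem pushSys_P (s : ℕ) : PushSys s (P s) ((w (s + 1) * P s * (w (s + 1))⁻¹)⁻¹) (Ta s) 1 := by
  have mP : P s ∈ M s 2 := P_mem_M le_rfl (by omega)
  have mw : w (s + 1) ∈ M s 2 := w_mem_M (by omega) (by omega)
  constructor
  · exact mP
  · exact Subgroup.inv_mem _ (Subgroup.mul_mem _ (Subgroup.mul_mem _ mw mP) (Subgroup.inv_mem _ mw))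
  · exact Ta_mem_M le_rfl (by omega)
  · show Ta s * P s = P s * Ta s
    (simp only [w_eq, iota_eq, TD_eq, S_eq, DX_eq, BP_eq, gKA_eq, KA_eq, KB_eq, Ta_ew, Tb_ew, P_ew, evWord_shift, evWord_inv', evWord_mul']; exact evWord_eq 4 _ _ (by decide +kernel) s)
  · show Ta s * (w (s + 1) * P s * (w (s + 1))⁻¹)⁻¹ = (w (s + 1) * P s * (w (s + 1))⁻¹)⁻¹ * Ta s
    (simp only [w_eq, iota_eq, TD_eq, S_eq, DX_eq, BP_eq, gKA_eq, KA_eq, KB_eq, Ta_ew, Tb_ew, P_ew, evWord_shift, evWord_inv', evWord_mul']; exact evWord_eq 4 _ _ (by decide +kernel) s)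
  · (simp only [w_eq, iota_eq, TD_eq, S_eq, DX_eq, BP_eq, gKA_eq, KA_eq, KB_eq, Ta_ew, Tb_ew, P_ew, evWord_shift, evWord_inv', evWord_mul']; exact evWord_eq 4 _ _ (by decide +kernel) s)
  · rw [zpow_one]; (simp only [w_eq, iota_eq, TD_eq, S_eq, DX_eq, BP_eq, gKA_eq, KA_eq, KB_eq, Ta_ew, Tb_ew, P_ew, evWord_shift, evWord_inv', evWord_mul']; exact evWord_eq 4 _ _ (by decide +kernel) s)
  · rw [zpow_neg, zpow_one]; (simp only [w_eq, iota_eq, TD_eq, S_eq, DX_eq, BP_eq, gKA_eq, KA_eq, KB_eq, Ta_ew, Tb_ew, P_ew, evWord_shift, evWord_inv', evWord_mul']; exact evWord_eq 4 _ _ (by decide +kernel) s)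
  · (simp only [w_eq, iota_eq, TD_eq, S_eq, DX_eq, BP_eq, gKA_eq, KA_eq, KB_eq, Ta_ew, Tb_ew, P_ew, evWord_shift, evWord_inv', evWord_mul']; exact evWord_eq 4 _ _ (by decide +kernel) s)
  · (simp only [w_eq, iota_eq, TD_eq, S_eq, DX_eq, BP_eq, gKA_eq, KA_eq, KB_eq, Ta_ew, Tb_ew, P_ew, evWord_shift, evWord_inv', evWord_mul']; exact evWord_eq 6 _ _ (by decide +kernel) s)
  · (simp only [w_eq, iota_eq, TD_eq, S_eq, DX_eq, BP_eq, gKA_eq, KA_eq, KB_eq, Ta_ew, Tb_ew, P_ew, evWord_shift, evWord_inv', evWord_mul']; exact evWord_eq 6 _ _ (by decide +kernel) s)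
  · (simp only [w_eq, iota_eq, TD_eq, S_eq, DX_eq, BP_eq, gKA_eq, KA_eq, KB_eq, Ta_ew, Tb_ew, P_ew, evWord_shift, evWord_inv', evWord_mul']; exact evWord_eq 6 _ _ (by decide +kernel) s)
  · rw [show (-(2 * 1) : ℤ) = -1 + -1 by norm_num, zpow_add, zpow_neg, zpow_one]; (simp only [w_eq, iota_eq, TD_eq, S_eq, DX_eq, BP_eq, gKA_eq, KA_eq, KB_eq, Ta_ew, Tb_ew, P_ew, evWord_shift, evWord_inv', evWord_mul']; exact evWord_eq 6 _ _ (by decide +kernel) s)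
  · (simp only [w_eq, iota_eq, TD_eq, S_eq, DX_eq, BP_eq, gKA_eq, KA_eq, KB_eq, Ta_ew, Tb_ew, P_ew, evWord_shift, evWord_inv', evWord_mul']; exact evWord_eq 6 _ _ (by decide +kernel) s)
  · (simp only [w_eq, iota_eq, TD_eq, S_eq, DX_eq, BP_eq, gKA_eq, KA_eq, KB_eq, Ta_ew, Tb_ew, P_ew, evWord_shift, evWord_inv', evWord_mul']; exact evWord_eq 6 _ _ (by decide +kernel) s)

/-- handle pushing -/
theorem pushSys_D (s : ℕ) : PushSys s (DX s) ((w (s + 1) * DX s * (w (s + 1))⁻¹)⁻¹) (TD s) (-1) := by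
  have mP : DX s ∈ M s 2 := DX_mem s 2 le_rfl
  have mw : w (s + 1) ∈ M s 2 := w_mem_M (by omega) (by omega)
  constructor
  · exact mP
  · exact Subgroup.inv_mem _ (Subgroup.mul_mem _ (Subgroup.mul_mem _ mw mP) (Subgroup.inv_mem _ mw))
  · exact TD_mem s 1 le_rfl
  · show TD s * DX s = DX s * TD s
    (simp only [w_eq, iota_eq, TD_eq, S_eq, DX_eq, BP_eq, gKA_eq, KA_eq, KB_eq, Ta_ew, Tb_ew, P_ew, evWord_shift, evWord_inv', evWord_mul']; exact evWord_eq 4 _ _ (by decide +kernel) s)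
  · show TD s * (w (s + 1) * DX s * (w (s + 1))⁻¹)⁻¹ = (w (s + 1) * DX s * (w (s + 1))⁻¹)⁻¹ * TD s
    (simp only [w_eq, iota_eq, TD_eq, S_eq, DX_eq, BP_eq, gKA_eq, KA_eq, KB_eq, Ta_ew, Tb_ew, P_ew, evWord_shift, evWord_inv', evWord_mul']; exact evWord_eq 4 _ _ (by decide +kernel) s)
  · (simp only [w_eq, iota_eq, TD_eq, S_eq, DX_eq, BP_eq, gKA_eq, KA_eq, KB_eq, Ta_ew, Tb_ew, P_ew, evWord_shift, evWord_inv', evWord_mul']; exact evWord_eq 4 _ _ (by decide +kernel) s)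
  · rw [zpow_neg, zpow_one]; (simp only [w_eq, iota_eq, TD_eq, S_eq, DX_eq, BP_eq, gKA_eq, KA_eq, KB_eq, Ta_ew, Tb_ew, P_ew, evWord_shift, evWord_inv', evWord_mul']; exact evWord_eq 4 _ _ (by decide +kernel) s)
  · rw [neg_neg, zpow_one]; (simp only [w_eq, iota_eq, TD_eq, S_eq, DX_eq, BP_eq, gKA_eq, KA_eq, KB_eq, Ta_ew, Tb_ew, P_ew, evWord_shift, evWord_inv', evWord_mul']; exact evWord_eq 4 _ _ (by decide +kernel) s)
  · (simp only [w_eq, iota_eq, TD_eq, S_eq, DX_eq, BP_eq, gKA_eq, KA_eq, KB_eq, Ta_ew, Tb_ew, P_ew, evWord_shift, evWord_inv', evWord_mul']; exact evWord_eq 4 _ _ (by decide +kernel) s)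
  · (simp only [w_eq, iota_eq, TD_eq, S_eq, DX_eq, BP_eq, gKA_eq, KA_eq, KB_eq, Ta_ew, Tb_ew, P_ew, evWord_shift, evWord_inv', evWord_mul']; exact evWord_eq 6 _ _ (by decide +kernel) s)
  · (simp only [w_eq, iota_eq, TD_eq, S_eq, DX_eq, BP_eq, gKA_eq, KA_eq, KB_eq, Ta_ew, Tb_ew, P_ew, evWord_shift, evWord_inv', evWord_mul']; exact evWord_eq 6 _ _ (by decide +kernel) s)
  · (simp only [w_eq, iota_eq, TD_eq, S_eq, DX_eq, BP_eq, gKA_eq, KA_eq, KB_eq, Ta_ew, Tb_ew, P_ew, evWord_shift, evWord_inv', evWord_mul']; exact evWord_eq 6 _ _ (by decide +kernel) s)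
  · rw [show (-(2 * -1) : ℤ) = 1 + 1 by norm_num, zpow_add, zpow_one]; (simp only [w_eq, iota_eq, TD_eq, S_eq, DX_eq, BP_eq, gKA_eq, KA_eq, KB_eq, Ta_ew, Tb_ew, P_ew, evWord_shift, evWord_inv', evWord_mul']; exact evWord_eq 6 _ _ (by decide +kernel) s)
  · (simp only [w_eq, iota_eq, TD_eq, S_eq, DX_eq, BP_eq, gKA_eq, KA_eq, KB_eq, Ta_ew, Tb_ew, P_ew, evWord_shift, evWord_inv', evWord_mul']; exact evWord_eq 6 _ _ (by decide +kernel) s)
  · (simp only [w_eq, iota_eq, TD_eq, S_eq, DX_eq, BP_eq, gKA_eq, KA_eq, KB_eq, Ta_ew, Tb_ew, P_ew, evWord_shift, evWord_inv', evWord_mul']; exact evWord_eq 6 _ _ (by decide +kernel) s)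

end Pool.Agent.Torelli
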