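import Pool.Agent.Torelli.FPart.Ma
import Pool.Agent.Torelli.Fin.Cnt

/-!
# Torelli / F : the statement `KapStmt` used by the counting part
-/

set_option autoImplicit false

namespace Pool.Agent.Torelli

theorem kapStmt : KapStmt where
  mul := fun _ _ _ _ hu hv h1 _ => kap_mul hu hv h1
  tor := fun _ _ _ hu h1 => kap_mem_Tor hu h1
  equiv := fun _ _ _ _ hγ hu h1 => kap_conj hγ hu h1

end Pool.Agent.Torelli
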