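import Pool.Agent.Torelli.Inter
import Pool.Agent.Torelli.Shift

/-!
# Torelli / F : push systems and their equivariance

A push system at handle `s` consists of two elements `x`, `y` of `M s 2` (the letters of
`a (s+1)`, `b (s+1)`) and a central element `C`, with a finite table of relations.
`gpush s x y : F →* MulAut F` is then equivariant under `M (s+1) h`, up to powers of `C`.
-/

set_option autoImplicit false

namespace Pool.Agent.Torelli

/-- transport of a letter by swaps -/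
def GQ (s : ℕ) (x : MulAut F) : ℕ → MulAut F
  | 0 => x
  | k + 1 => S (s + 1 + k) * GQ s x k * (S (s + 1 + k))⁻¹

/-- letters of a push system -/
def GLt (s : ℕ) (x y : MulAut F) (n : ℕ) : MulAut F :=
  if n < 2 * (s + 1) then 1
  else if n % 2 = 0 then GQ s x (n / 2 - (s + 1)) else GQ s y (n / 2 - (s + 1))

/-- the homomorphism of a push system -/
def gpush (s : ℕ) (x y : MulAut F) : F →* MulAut F := FreeGroup.lift (GLt s x y)

theorem Qa_eq_GQ (s k : ℕ) : Qa s k = GQ s (P s) k := by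
  induction k with
  | zero => rfl
  | succ k ih => rw [Qa, GQ, ih]

theorem Qb_eq_GQ (s k : ℕ) : Qb s k = GQ s ((w (s + 1) * P s * (w (s + 1))⁻¹)⁻¹) k := by
  induction k with
  | zero => rfl
  | succ k ih => rw [Qb, GQ, ih]

theorem Da_eq_GQ (s k : ℕ) : Da s k = GQ s (DX s) k := by
  induction k with
  | zero => rfl
  | succ k ih => rw [Da, GQ, ih]

theorem Db_eq_GQ (s k : ℕ) : Db s k = GQ s ((w (s + 1) * DX s * (w (s + 1))⁻¹)⁻¹) k := by
  induction k with
  | zero => rfl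
  | succ k ih => rw [Db, GQ, ih]

theorem push_eq_gpush (s : ℕ) :
    push s = gpush s (P s) ((w (s + 1) * P s * (w (s + 1))⁻¹)⁻¹) := by
  unfold push gpush
  congr 1
  funext n
  simp only [QL, GLt, Qa_eq_GQ, Qb_eq_GQ]

/-- handle pushing -/
def dpush (s : ℕ) : F →* MulAut F := gpush s (DX s) ((w (s + 1) * DX s * (w (s + 1))⁻¹)⁻¹)

theorem gpush_a (s : ℕ) (x y : MulAut F) (k : ℕ) : gpush s x y (a (s + 1 + k)) = GQ s x k := by
  have h1 : ¬ (2 * (s + 1 + k) < 2 * (s + 1)) := by omega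
  have h2 : 2 * (s + 1 + k) % 2 = 0 := by omega
  have h3 : 2 * (s + 1 + k) / 2 - (s + 1) = k := by omega
  simp only [gpush, a, FreeGroup.lift_apply_of, GLt, if_neg h1, if_pos h2, h3]

theorem gpush_b (s : ℕ) (x y : MulAut F) (k : ℕ) : gpush s x y (b (s + 1 + k)) = GQ s y k := by
  have h1 : ¬ (2 * (s + 1 + k) + 1 < 2 * (s + 1)) := by omega
  have h2 : ¬ ((2 * (s + 1 + k) + 1) % 2 = 0) := by omega
  have h3 : (2 * (s + 1 + k) + 1) / 2 - (s + 1) = k := by omega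
  simp only [gpush, b, FreeGroup.lift_apply_of, GLt, if_neg h1, if_neg h2, h3]

theorem Ta_succ (s : ℕ) : Ta (s + 1) = S s * Ta s * (S s)⁻¹ := by (simp only [w_eq, iota_eq, TD_eq, S_eq, DX_eq, BP_eq, gKA_eq, KA_eq, KB_eq, Ta_ew, Tb_ew, P_ew, evWord_shift, evWord_inv', evWord_mul']; exact evWord_eq 4 _ _ (by decide +kernel) s)
theorem Tb_succ (s : ℕ) : Tb (s + 1) = S s * Tb s * (S s)⁻¹ := by (simp only [w_eq, iota_eq, TD_eq, S_eq, DX_eq, BP_eq, gKA_eq, KA_eq, KB_eq, Ta_ew, Tb_ew, P_ew, evWord_shift, evWord_inv', evWord_mul']; exact evWord_eq 4 _ _ (by decide +kernel) s)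
theorem P_succ (s : ℕ) : P (s + 1) = S s * S (s + 1) * P s * (S (s + 1))⁻¹ * (S s)⁻¹ := by
  (simp only [w_eq, iota_eq, TD_eq, S_eq, DX_eq, BP_eq, gKA_eq, KA_eq, KB_eq, Ta_ew, Tb_ew, P_ew, evWord_shift, evWord_inv', evWord_mul']; exact evWord_eq 6 _ _ (by decide +kernel) s)
theorem Ta_S (s : ℕ) : Ta s * S s = S s * Ta (s + 1) := by (simp only [w_eq, iota_eq, TD_eq, S_eq, DX_eq, BP_eq, gKA_eq, KA_eq, KB_eq, Ta_ew, Tb_ew, P_ew, evWord_shift, evWord_inv', evWord_mul']; exact evWord_eq 4 _ _ (by decide +kernel) s)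
theorem Tb_S (s : ℕ) : Tb s * S s = S s * Tb (s + 1) := by (simp only [w_eq, iota_eq, TD_eq, S_eq, DX_eq, BP_eq, gKA_eq, KA_eq, KB_eq, Ta_ew, Tb_ew, P_ew, evWord_shift, evWord_inv', evWord_mul']; exact evWord_eq 4 _ _ (by decide +kernel) s)
theorem P_SS (s : ℕ) : P s * (S (s + 1) * S s) = S (s + 1) * S s * P (s + 1) := by (simp only [w_eq, iota_eq, TD_eq, S_eq, DX_eq, BP_eq, gKA_eq, KA_eq, KB_eq, Ta_ew, Tb_ew, P_ew, evWord_shift, evWord_inv', evWord_mul']; exact evWord_eq 6 _ _ (by decide +kernel) s)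

/-- `M s h` is generated by `Ta s`, `Tb s`, `P s` and the swaps. -/
theorem M_le_of_swap {s h : ℕ} {K : Subgroup (MulAut F)} (h1 : 1 ≤ h → Ta s ∈ K)
    (h2 : 1 ≤ h → Tb s ∈ K) (h3 : 2 ≤ h → P s ∈ K)
    (h4 : ∀ i, s ≤ i → i + 1 < s + h → S i ∈ K) : M s h ≤ K := by
  have hTa : ∀ k, k < h → Ta (s + k) ∈ K := by
    intro k
    induction k with
    | zero => intro hk; exact h1 (by omega)
    | succ k ih =>
      intro hk
      have e : Ta (s + (k + 1)) = S (s + k) * Ta (s + k) * (S (s + k))⁻¹ := by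
        exact Ta_succ (s + k)
      rw [e]
      exact K.mul_mem (K.mul_mem (h4 _ (by omega) (by omega)) (ih (by omega)))
        (K.inv_mem (h4 _ (by omega) (by omega)))
  have hTb : ∀ k, k < h → Tb (s + k) ∈ K := by
    intro k
    induction k with
    | zero => intro hk; exact h2 (by omega)
    | succ k ih =>
      intro hk
      have e : Tb (s + (k + 1)) = S (s + k) * Tb (s + k) * (S (s + k))⁻¹ := by
        exact Tb_succ (s + k)
      rw [e]
      exact K.mul_mem (K.mul_mem (h4 _ (by omega) (by omega)) (ih (by omega)))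
        (K.inv_mem (h4 _ (by omega) (by omega)))
  have hP : ∀ k, k + 1 < h → P (s + k) ∈ K := by
    intro k
    induction k with
    | zero => intro hk; exact h3 (by omega)
    | succ k ih =>
      intro hk
      have e : P (s + (k + 1)) = S (s + k) * S (s + k + 1) * P (s + k) *
          (S (s + k + 1))⁻¹ * (S (s + k))⁻¹ := by
        exact P_succ (s + k)
      rw [e]
      have m1 := h4 (s + k) (by omega) (by omega)
      have m2 := h4 (s + k + 1) (by omega) (by omega)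
      exact K.mul_mem (K.mul_mem (K.mul_mem (K.mul_mem m1 m2) (ih (by omega))) (K.inv_mem m2))
        (K.inv_mem m1)
  refine M_le ?_ ?_ ?_
  · intro i hi hi'
    obtain ⟨k, rfl⟩ := Nat.exists_eq_add_of_le hi
    exact hTa k (by omega)
  · intro i hi hi'
    obtain ⟨k, rfl⟩ := Nat.exists_eq_add_of_le hi
    exact hTb k (by omega)
  · intro i hi hi'
    obtain ⟨k, rfl⟩ := Nat.exists_eq_add_of_le hi
    exact hP k (by omega)

theorem S_mem_M {i s h : ℕ} (h1 : s ≤ i) (h2 : i + 1 < s + h) : S i ∈ M s h :=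
  M_mono h1 (by omega) (S_mem i 2 le_rfl)

/-- the finite table of a push system -/
structure PushSys (s : ℕ) (x y C : MulAut F) (e : ℤ) : Prop where
  hx : x ∈ M s 2
  hy : y ∈ M s 2
  hC : C ∈ M s 1
  Cx : Commute C x
  Cy : Commute C y
  t1 : Ta (s + 1) * x * (Ta (s + 1))⁻¹ = x
  t2 : Ta (s + 1) * y * (Ta (s + 1))⁻¹ = y * x * C ^ e
  t3 : Tb (s + 1) * x * (Tb (s + 1))⁻¹ = x * y * C ^ (-e)
  t4 : Tb (s + 1) * y * (Tb (s + 1))⁻¹ = y
  t5 : P (s + 1) * x * (P (s + 1))⁻¹ = x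
  t6 : P (s + 1) * y * (P (s + 1))⁻¹ = (S (s + 1) * x * (S (s + 1))⁻¹)⁻¹ * y
  t7 : P (s + 1) * (S (s + 1) * x * (S (s + 1))⁻¹) * (P (s + 1))⁻¹ =
    (S (s + 1) * x * (S (s + 1))⁻¹)⁻¹ * (y * x * y⁻¹) * (S (s + 1) * x * (S (s + 1))⁻¹) *
      (y * x⁻¹ * y⁻¹) * (S (s + 1) * x * (S (s + 1))⁻¹)
  t8 : P (s + 1) * (S (s + 1) * y * (S (s + 1))⁻¹) * (P (s + 1))⁻¹ =
    (S (s + 1) * y * (S (s + 1))⁻¹) * (S (s + 1) * x * (S (s + 1))⁻¹)⁻¹ * (y * x⁻¹ * y⁻¹) *
      (S (s + 1) * x * (S (s + 1))⁻¹) * C ^ (-(2 * e))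
  t9 : S (s + 1) * (S (s + 1) * x * (S (s + 1))⁻¹) * (S (s + 1))⁻¹ =
    (S (s + 1) * (x * y * x⁻¹ * y⁻¹) * (S (s + 1))⁻¹)⁻¹ * x *
      (S (s + 1) * (x * y * x⁻¹ * y⁻¹) * (S (s + 1))⁻¹)
  t10 : S (s + 1) * (S (s + 1) * y * (S (s + 1))⁻¹) * (S (s + 1))⁻¹ =
    (S (s + 1) * (x * y * x⁻¹ * y⁻¹) * (S (s + 1))⁻¹)⁻¹ * y *
      (S (s + 1) * (x * y * x⁻¹ * y⁻¹) * (S (s + 1))⁻¹)

theorem GQ_mem {s : ℕ} {x : MulAut F} (hx : x ∈ M s 2) (k : ℕ) : GQ s x k ∈ M s (k + 2) := by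
  induction k with
  | zero => simpa [GQ] using hx
  | succ k ih =>
    rw [GQ]
    have m1 : S (s + 1 + k) ∈ M s (k + 1 + 2) := S_mem_M (by omega) (by omega)
    exact (M s (k + 1 + 2)).mul_mem ((M s (k + 1 + 2)).mul_mem m1 (M_mono le_rfl (by omega) ih))
      ((M s (k + 1 + 2)).inv_mem m1)

theorem S_commute_far {i j : ℕ} (h : i + 2 ≤ j) : Commute (S i) (S j) := by
  have h1 : S i ∈ M i 2 := S_mem i 2 le_rfl
  have h2 : S j ∈ M j 2 := S_mem j 2 le_rfl
  exact M_commute h1 h2 (Or.inr (by omega))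

theorem GQ_commute_high {s : ℕ} {x : MulAut F} (hx : x ∈ M s 2) (k i : ℕ) (hi : s + 1 + k < i) :
    Commute (S i) (GQ s x k) := by
  have h1 : S i ∈ M i 2 := S_mem i 2 le_rfl
  exact (M_commute (GQ_mem hx k) h1 (Or.inr (by omega))).symm

theorem GQ_commute_low {s : ℕ} {x : MulAut F} (hx : x ∈ M s 2) (k : ℕ) :
    ∀ i, s + 1 ≤ i → i + 1 < s + 1 + k → Commute (S i) (GQ s x k) := by
  induction k with
  | zero => intro i h1 h2; omega
  | succ k ih =>
    intro i h1 h2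
    rw [GQ]
    by_cases h3 : i + 1 < s + 1 + k
    · have c1 : Commute (S i) (S (s + 1 + k)) := S_commute_far (by omega)
      exact (c1.mul_right (ih i h1 h3)).mul_right c1.inv_right
    · obtain ⟨k', rfl⟩ : ∃ k', k = k' + 1 := ⟨k - 1, by omega⟩
      have e : i = s + 1 + k' := by omega
      subst e
      rw [GQ]
      have b1 : S (s + 1 + k') * S (s + 1 + k' + 1) * S (s + 1 + k') =
          S (s + 1 + k' + 1) * S (s + 1 + k') * S (s + 1 + k' + 1) := S_braid _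
      have c1 : S (s + 1 + k' + 1) * GQ s x k' = GQ s x k' * S (s + 1 + k' + 1) :=
        GQ_commute_high hx k' (s + 1 + k' + 1) (by omega)
      show S (s + 1 + k') * (S (s + 1 + k' + 1) * (S (s + 1 + k') * GQ s x k' *
        (S (s + 1 + k'))⁻¹) * (S (s + 1 + k' + 1))⁻¹) = (S (s + 1 + k' + 1) * (S (s + 1 + k') *
        GQ s x k' * (S (s + 1 + k'))⁻¹) * (S (s + 1 + k' + 1))⁻¹) * S (s + 1 + k')
      generalize S (s + 1 + k') = p at *
      generalize S (s + 1 + k' + 1) = q at *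
      generalize GQ s x k' = g at *
      have e1 : p * (q * (p * g * p⁻¹) * q⁻¹) = q * p * (q * g) * p⁻¹ * q⁻¹ := by
        calc p * (q * (p * g * p⁻¹) * q⁻¹) = (p * q * p) * g * p⁻¹ * q⁻¹ := by group
          _ = _ := by rw [b1]; group
      have e2 : p⁻¹ * q⁻¹ * p = q * p⁻¹ * q⁻¹ := by
        have : q * p * (p⁻¹ * q⁻¹ * p) * q * p = q * p * (q * p⁻¹ * q⁻¹) * q * p := by
          calc q * p * (p⁻¹ * q⁻¹ * p) * q * p = p * q * p := by group
            _ = q * p * q := b1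
            _ = _ := by group
        have h5 := mul_right_cancel (mul_right_cancel this)
        exact mul_left_cancel h5
      rw [e1, c1]
      calc q * p * (g * q) * p⁻¹ * q⁻¹ = q * p * g * (q * p⁻¹ * q⁻¹) := by group
        _ = q * p * g * (p⁻¹ * q⁻¹ * p) := by rw [e2]
        _ = _ := by group

theorem conj_GQ_succ (s k : ℕ) (x : MulAut F) :
    S (s + 1 + k) * GQ s x k * (S (s + 1 + k))⁻¹ = GQ s x (k + 1) := rfl

end Pool.Agent.Torelli
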